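import Pool.Agent.W133.DQ.StF

set_option autoImplicit false

open scoped ContDiff
open Set Filter Topology

namespace Pool.Agent.W586.DQ

open Pool.Agent.W133.DQ

/-- Key lemma: a smooth diffeomorphism of the closed disk maps interior points to interior
points. -/
theorem key (g : Equiv.Perm DD) (hg : ExtD g) (q : DD) (hq : nq q < 1) : nq (g q) < 1 := by
  obtain ⟨F, hF, hF', hF2⟩ := hg
  by_contra hcon
  have hle : nq (g q) ≤ 1 := (g q).2
  have heq : nq (g q) = 1 := le_antisymm hle (not_lt.1 hcon)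
  have hd : DifferentiableAt ℝ F (q : P2) := hF.differentiable (by simp) _
  have hFq : F (q : P2) = (g q : P2) := (hF' q).symm
  -- the function
  set N : P2 → ℝ := fun z => (F z).1 ^ 2 + (F z).2 ^ 2 with hN
  have hNq : N (q : P2) = 1 := by
    rw [hN]
    simp only [hFq]
    exact heq
  have hopen : ∀ᶠ z : P2 in 𝓝 (q : P2), z.1 ^ 2 + z.2 ^ 2 < 1 := by
    have hc : Continuous (fun z : P2 => z.1 ^ 2 + z.2 ^ 2) := by fun_prop
    exact hc.continuousAt.eventually_lt continuousAt_const hq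
  have hmax : IsLocalMax N (q : P2) := by
    filter_upwards [hopen] with z hz
    rw [hNq]
    have h1 := hF' ⟨z, hz.le⟩
    have h2 := (g ⟨z, hz.le⟩).2
    rw [h1] at h2
    exact h2
  have h1 : HasFDerivAt (fun z : P2 => (F z).1)
      ((ContinuousLinearMap.fst ℝ ℝ ℝ).comp (fderiv ℝ F (q : P2))) (q : P2) :=
    hd.hasFDerivAt.fst
  have h2 : HasFDerivAt (fun z : P2 => (F z).2)
      ((ContinuousLinearMap.snd ℝ ℝ ℝ).comp (fderiv ℝ F (q : P2))) (q : P2) :=
    hd.hasFDerivAt.snd
  have h3 := (h1.pow 2).add (h2.pow 2)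
  have h4 := hmax.hasFDerivAt_eq_zero h3
  -- surjectivity of the derivative
  have hdet : (fderiv ℝ F (q : P2)).det ≠ 0 := (hF2 q).ne'
  have hsurj : Function.Surjective (fderiv ℝ F (q : P2)) := by
    have h5 : IsUnit (LinearMap.det ((fderiv ℝ F (q : P2)) : P2 →ₗ[ℝ] P2)) :=
      isUnit_iff_ne_zero.2 hdet
    have h6 := (LinearMap.isUnit_iff_isUnit_det _).2 h5
    have h7 := (Module.End.isUnit_iff _).1 h6
    exact h7.2
  obtain ⟨v, hv⟩ := hsurj (F (q : P2))
  have h8 := congrArg (fun L : P2 →L[ℝ] ℝ => L v) h4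
  simp [hv] at h8
  have h9 : N (q : P2) = (F (q : P2)).1 * (F (q : P2)).1 + (F (q : P2)).2 * (F (q : P2)).2 := by
    rw [hN]; ring
  rw [hNq] at h9
  nlinarith

/-- BDRY: elements of `GG` preserve the boundary circle. -/
theorem bdry : S_BDRY := by
  intro f hf p
  obtain ⟨h1, h2, -⟩ := hf
  have hle : ∀ x : DD, nq x ≤ 1 := fun x => x.2
  constructor
  · intro hp
    by_contra hcon
    have h3 : nq (f p) < 1 := lt_of_le_of_ne (hle _) hcon
    have h4 := key f⁻¹ h2 (f p) h3
    rw [show f⁻¹ (f p) = p from f.symm_apply_apply p, hp] at h4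
    exact lt_irrefl _ h4
  · intro hp
    by_contra hcon
    have h3 : nq p < 1 := lt_of_le_of_ne (hle _) hcon
    have h4 := key f h1 p h3
    rw [hp] at h4
    exact lt_irrefl _ h4

end Pool.Agent.W586.DQ
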